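import Pool.Agent.H321Z.MR.SPF

set_option autoImplicit false

open Set Filter Topology

namespace Pool.Agent.H321Z.MR

/-- The set `Q` of points of the Cantor cube depends only on the coordinates in `s`. -/
def Dep {Γ : Type} (Q : Set (Γ → Bool)) (s : Set Γ) : Prop :=
  ∀ d d' : Γ → Bool, (∀ γ ∈ s, d γ = d' γ) → d ∈ Q → d' ∈ Q

theorem Dep.compl {Γ : Type} {Q : Set (Γ → Bool)} {s : Set Γ} (h : Dep Q s) : Dep Qᶜ s :=
  fun d d' hd hQ hQ' => hQ (h d' d (fun γ hγ => (hd γ hγ).symm) hQ')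

theorem Dep.mono {Γ : Type} {Q : Set (Γ → Bool)} {s t : Set Γ} (h : Dep Q s) (hst : s ⊆ t) :
    Dep Q t := fun d d' hd hQ => h d d' (fun γ hγ => hd γ (hst hγ)) hQ

theorem isOpen_cyl {Γ : Type} (d : Γ → Bool) {s : Set Γ} (hs : s.Finite) :
    IsOpen {d' : Γ → Bool | ∀ γ ∈ s, d' γ = d γ} := by
  have : {d' : Γ → Bool | ∀ γ ∈ s, d' γ = d γ} = ⋂ γ ∈ s, (fun d' : Γ → Bool => d' γ) ⁻¹' {d γ} := by
    ext d'
    simp
  rw [this]
  exact hs.isOpen_biInter (fun γ _ => (isOpen_discrete _).preimage (continuous_apply γ))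

theorem Dep.isOpen {Γ : Type} {Q : Set (Γ → Bool)} {s : Set Γ} (h : Dep Q s) (hs : s.Finite) :
    IsOpen Q := by
  rw [isOpen_iff_mem_nhds]
  intro d hd
  refine mem_of_superset ((isOpen_cyl d hs).mem_nhds (fun _ _ => rfl)) ?_
  intro d' hd'
  exact h d d' (fun γ hγ => (hd' γ hγ).symm) hd

theorem Dep.isClosed {Γ : Type} {Q : Set (Γ → Bool)} {s : Set Γ} (h : Dep Q s) (hs : s.Finite) :
    IsClosed Q := isOpen_compl_iff.1 (h.compl.isOpen hs)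

/-- An upper semicontinuous compact-valued presentation of a space in a Cantor cube. -/
structure Setting (Y Γ : Type) [TopologicalSpace Y] where
  lev : Γ → ℕ
  K : Y → Set (Γ → Bool)
  cpt : ∀ y, IsCompact (K y)
  ne : ∀ y, (K y).Nonempty
  fin : ∀ y, ∀ d ∈ K y, ∀ n, {γ | lev γ ≤ n ∧ d γ = true}.Finite
  usc : ∀ U, IsOpen U → IsOpen {y | K y ⊆ U}
  cont : ∀ y O, IsOpen O → y ∈ O → ∀ d ∈ K y, ∃ s : Set Γ, s.Finite ∧
    ∀ z, ∀ d' ∈ K z, (∀ γ ∈ s, d' γ = d γ) → z ∈ O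

/-- Countable open covers of closed sets have closed shrinkings. -/
def Shrink (Y : Type) [TopologicalSpace Y] : Prop :=
  ∀ (C : Set Y) (W : ℕ → Set Y), IsClosed C → (∀ n, IsOpen (W n)) → C ⊆ ⋃ n, W n →
    ∃ F : ℕ → Set Y, (∀ n, IsClosed (F n)) ∧ (∀ n, F n ⊆ W n) ∧ C ⊆ ⋃ n, F n

variable {Y Γ : Type} [TopologicalSpace Y]

/-- Localised union of systems. -/
def Sys.sigma (S : Sys Y) (T : S.J → Sys Y) : Sys Y where
  J := Σ j, (T j).J
  C := fun p => S.C p.1 ∩ (T p.1).C p.2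
  W := fun p => S.W p.1 ∩ (T p.1).W p.2
  hC := fun p => (S.hC p.1).inter ((T p.1).hC p.2)
  hW := fun p => (S.hW p.1).inter ((T p.1).hW p.2)
  sub := fun p => inter_subset_inter (S.sub p.1) ((T p.1).sub p.2)
  spf := S.spf.sigma (fun j => (T j).spf)

/-- The trivial countable system. -/
def Sys.triv (Y : Type) [TopologicalSpace Y] (κ : Type) [Countable κ] : Sys Y where
  J := κ
  C := fun _ => univ
  W := fun _ => univ
  hC := fun _ => isClosed_univ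
  hW := fun _ => isOpen_univ
  sub := fun _ => subset_rfl
  spf := SPF.of_countable _

namespace Setting

variable (S : Setting Y Γ)

def Hit (Q : Set (Γ → Bool)) : Set Y := {y | ∃ d ∈ S.K y, d ∈ Q}

def Sub (Q : Set (Γ → Bool)) : Set Y := {y | S.K y ⊆ Q}

def addr (m : ℕ) (d : Γ → Bool) : Set Γ := {γ | S.lev γ ≤ m ∧ d γ = true}

theorem compl_Hit (Q : Set (Γ → Bool)) : (S.Hit Q)ᶜ = S.Sub Qᶜ := by
  ext y
  simp only [Hit, Sub, mem_compl_iff, mem_setOf_eq, not_exists, not_and, subset_def]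

theorem isOpen_Sub {Q : Set (Γ → Bool)} (h : IsOpen Q) : IsOpen (S.Sub Q) := S.usc Q h

theorem isClosed_Hit {Q : Set (Γ → Bool)} (h : IsClosed Q) : IsClosed (S.Hit Q) := by
  rw [← isOpen_compl_iff, compl_Hit]
  exact S.isOpen_Sub h.isOpen_compl

theorem Sub_subset_Hit (Q : Set (Γ → Bool)) : S.Sub Q ⊆ S.Hit Q := by
  intro y hy
  obtain ⟨d, hd⟩ := S.ne y
  exact ⟨d, hd, hy hd⟩

theorem cont_unif (y : Y) {O : Set Y} (hO : IsOpen O) (hy : y ∈ O) :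
    ∃ s : Set Γ, s.Finite ∧ ∀ d ∈ S.K y, ∀ z, ∀ d' ∈ S.K z, (∀ γ ∈ s, d' γ = d γ) → z ∈ O := by
  choose s hs hs' using fun d : S.K y => S.cont y O hO hy d.1 d.2
  obtain ⟨t, ht⟩ := (S.cpt y).elim_finite_subcover
    (fun d : S.K y => {d' : Γ → Bool | ∀ γ ∈ s d, d' γ = d.1 γ})
    (fun d => isOpen_cyl d.1 (hs d)) (fun d hd => mem_iUnion.2 ⟨⟨d, hd⟩, fun _ _ => rfl⟩)
  refine ⟨⋃ d ∈ t, s d, t.finite_toSet.biUnion (fun d _ => hs d), ?_⟩
  intro e he z d' hd' hag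
  obtain ⟨d, hdt, hed⟩ := mem_iUnion₂.1 (ht he)
  refine hs' d z d' hd' (fun γ hγ => ?_)
  rw [hag γ (mem_biUnion hdt hγ), hed γ hγ]

theorem exists_sat (y : Y) {O : Set Y} (hO : IsOpen O) (hy : y ∈ O) :
    ∃ (P : Set (Γ → Bool)) (s : Set Γ), s.Finite ∧ Dep P s ∧ S.K y ⊆ P ∧ S.Hit P ⊆ O := by
  obtain ⟨s, hs, h⟩ := S.cont_unif y hO hy
  refine ⟨{d' | ∃ d ∈ S.K y, ∀ γ ∈ s, d' γ = d γ}, s, hs, ?_, ?_, ?_⟩
  · rintro d d' hdd ⟨e, he, hde⟩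
    exact ⟨e, he, fun γ hγ => (hdd γ hγ).symm.trans (hde γ hγ)⟩
  · intro d hd
    exact ⟨d, hd, fun _ _ => rfl⟩
  · rintro z ⟨d', hd', e, he, hde⟩
    exact h e he z d' hd' hde

theorem exists_level {s : Set Γ} (hs : s.Finite) : ∃ m, ∀ γ ∈ s, S.lev γ ≤ m := by
  obtain ⟨m, hm⟩ := (hs.image S.lev).bddAbove
  exact ⟨m, fun γ hγ => hm (mem_image_of_mem _ hγ)⟩

def cell (m : ℕ) (a : Set Γ) : Set (Γ → Bool) := {d | S.addr m d = a}

theorem isClosed_cell (m : ℕ) (a : Set Γ) : IsClosed (S.cell m a) := by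
  have : S.cell m a = ⋂ γ, (fun d : Γ → Bool => d γ) ⁻¹'
      {b | (S.lev γ ≤ m ∧ b = true) ↔ γ ∈ a} := by
    ext d
    simp only [cell, addr, mem_setOf_eq, mem_iInter, mem_preimage, Set.ext_iff]
  rw [this]
  exact isClosed_iInter (fun γ => (isClosed_discrete _).preimage (continuous_apply γ))

theorem isOpen_up {c : Set Γ} (hc : c.Finite) : IsOpen {d : Γ → Bool | ∀ γ ∈ c, d γ = true} :=
  isOpen_cyl (fun _ => true) hc

include S in
theorem expand (hSH : Shrink Y) {I : Type} (D : I → ℕ → Set Y) (hD : ∀ i n, IsClosed (D i n))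
    (α : Set Y → Set I) (hα : ∀ A, (α A).Finite)
    (hloc : ∀ i n, ∀ z ∈ D i n, ∃ O, IsOpen O ∧ z ∈ O ∧ ∀ A, z ∈ A → A ⊆ O → i ∈ α A) :
    ∃ T : Sys Y, (∀ j, ∃ i n, T.C j ⊆ D i n) ∧ ∀ i n, ∀ z ∈ D i n, ∃ j, z ∈ T.C j := by
  let W : I → ℕ → Set Y := fun i m => S.Sub (⋃ c ∈ {c : Set Γ | c.Finite ∧ (∀ γ ∈ c, S.lev γ ≤ m) ∧
    i ∈ α (S.Hit (S.cell m c))}, {d : Γ → Bool | ∀ γ ∈ c, d γ = true})
  have hWo : ∀ i m, IsOpen (W i m) := fun i m =>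
    S.isOpen_Sub (isOpen_biUnion (fun c hc => isOpen_up hc.1))
  have hcov : ∀ i n, D i n ⊆ ⋃ m, W i m := by
    intro i n z hz
    obtain ⟨O, hO, hzO, hA⟩ := hloc i n z hz
    obtain ⟨s, hs, h⟩ := S.cont_unif z hO hzO
    obtain ⟨m, hm⟩ := S.exists_level hs
    refine mem_iUnion.2 ⟨m, fun d hd => ?_⟩
    refine mem_biUnion (x := S.addr m d) ⟨S.fin z d hd m, fun γ hγ => hγ.1, ?_⟩ (fun γ hγ => hγ.2)
    refine hA _ ⟨d, hd, rfl⟩ ?_
    rintro w ⟨d', hd', hc⟩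
    refine h d hd w d' hd' (fun γ hγ => ?_)
    have h1 : γ ∈ S.addr m d' ↔ γ ∈ S.addr m d := by
      have hc' : S.addr m d' = S.addr m d := hc
      rw [hc']
    simp only [addr, mem_setOf_eq, hm γ hγ, true_and] at h1
    exact Bool.eq_iff_iff.2 h1
  have hpf : ∀ m z, {i | z ∈ W i m}.Finite := by
    intro m z
    obtain ⟨d, hd⟩ := S.ne z
    refine ((S.fin z d hd m).finite_subsets.biUnion
      (fun c _ => hα (S.Hit (S.cell m c)))).subset ?_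
    intro i hi
    obtain ⟨c, hc, hdc⟩ := mem_iUnion₂.1 (hi hd)
    exact mem_biUnion (x := c) (fun γ hγ => ⟨hc.2.1 γ hγ, hdc γ hγ⟩) hc.2.2
  choose F hFc hFW hFcov using fun i n => hSH (D i n) (W i) (hD i n) (hWo i) (hcov i n)
  refine ⟨{ J := I × ℕ × ℕ
            C := fun p => F p.1 p.2.1 p.2.2 ∩ D p.1 p.2.1
            W := fun p => W p.1 p.2.2
            hC := fun p => (hFc _ _ _).inter (hD _ _)
            hW := fun p => hWo _ _
            sub := fun p => inter_subset_left.trans (hFW _ _ _)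
            spf := ?_ }, fun p => ⟨p.1, p.2.1, inter_subset_right⟩, ?_⟩
  · refine SPF.of_level (κ := ℕ × ℕ) (fun p => p.2) ?_
    rintro ⟨n, m⟩ z
    refine ((hpf m z).image (fun i => (i, n, m))).subset ?_
    rintro ⟨i, n', m'⟩ ⟨h1, h2⟩
    simp only [Prod.mk.injEq] at h1
    obtain ⟨rfl, rfl⟩ := h1
    exact ⟨i, h2, rfl⟩
  · intro i n z hz
    obtain ⟨m, hm⟩ := mem_iUnion.1 (hFcov i n hz)
    exact ⟨(i, n, m), hm, hz⟩

include S in
theorem open_cover [NormalSpace Y] [T1Space Y] (hSH : Shrink Y) {O : Set Y} (hO : IsOpen O) :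
    ∃ T : Sys Y, (∀ j, T.C j ⊆ O) ∧ ∀ z ∈ O, ∃ j, z ∈ T.C j := by
  have hex : ∀ y : O, ∃ h : C(Y, ℝ), EqOn h 0 Oᶜ ∧ EqOn h 1 {y.1} ∧
      ∀ x, h x ∈ Icc (0 : ℝ) 1 := fun y =>
    exists_continuous_zero_one_of_isClosed hO.isClosed_compl isClosed_singleton
      (disjoint_compl_left_iff_subset.2 (singleton_subset_iff.2 y.2))
  choose h h0 h1 _ using hex
  obtain ⟨_, hwo⟩ := exists_wellOrder O
  let V : O → Set Y := fun y => {z | 0 < h y z}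
  have hVo : ∀ y, IsOpen (V y) := fun y => isOpen_lt continuous_const (h y).continuous
  obtain ⟨T, hT1, hT2⟩ := S.expand hSH
    (fun (y : O) (n : ℕ) => {z | 1 / ((n : ℝ) + 1) ≤ h y z} \ ⋃ y' ∈ Iio y, V y')
    (fun y n => (isClosed_le continuous_const (h y).continuous).sdiff
      (isOpen_biUnion (fun y' _ => hVo y')))
    (fun A => {y | A ⊆ V y ∧ ∀ y' < y, ¬ A ⊆ V y'})
    (fun A => Set.Subsingleton.finite (fun y hy y' hy' => by
      by_contra hne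
      rcases lt_or_gt_of_ne hne with hlt | hlt
      · exact hy'.2 y hlt hy.1
      · exact hy.2 y' hlt hy'.1))
    (fun y n z hz => ⟨V y, hVo y, lt_of_lt_of_le (Nat.one_div_pos_of_nat (α := ℝ) (n := n)) hz.1, fun A hzA hA =>
      ⟨hA, fun y' hy' hA' => hz.2 (mem_biUnion (x := y') hy' (hA' hzA))⟩⟩)
  refine ⟨T, fun j => ?_, fun z hz => ?_⟩
  · obtain ⟨y, n, hj⟩ := hT1 j
    intro z hz
    by_contra hzO
    have e0 : h y z = 0 := h0 y hzO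
    have h2 : 1 / ((n : ℝ) + 1) ≤ h y z := (hj hz).1
    have h3 : (0 : ℝ) < 1 / ((n : ℝ) + 1) := by positivity
    linarith
  · have hne : {y : O | z ∈ V y}.Nonempty := by
      refine ⟨⟨z, hz⟩, ?_⟩
      have e1 : h ⟨z, hz⟩ z = 1 := h1 ⟨z, hz⟩ rfl
      show 0 < h ⟨z, hz⟩ z
      rw [e1]
      exact one_pos
    obtain ⟨y, hy, hmin⟩ := hwo.wf.has_min _ hne
    obtain ⟨n, hn⟩ := exists_nat_one_div_lt (show 0 < h y z from hy)
    refine hT2 y n z ⟨hn.le, fun hmem => ?_⟩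
    obtain ⟨y', hy', hz'⟩ := mem_iUnion₂.1 hmem
    exact hmin y' hz' hy'

theorem cert_level [NormalSpace Y] [T1Space Y] (hSH : Shrink Y) (m k : ℕ) :
    ∃ T : Sys Y, (∀ j, ∃ a : Set Γ, a.Finite ∧ T.C j ⊆ S.Hit (S.cell m a)) ∧
      ∀ y, (∀ d ∈ S.K y, k ≤ (S.addr m d).ncard) → (∃ d ∈ S.K y, (S.addr m d).ncard = k) →
        ∃ j, y ∈ T.C j := by
  classical
  let ι : Type := {c : Set Γ // c.Finite ∧ c.ncard = k ∧ ∀ γ ∈ c, S.lev γ ≤ m}
  let U : ι → Set (Γ → Bool) := fun c => {d | ∀ γ ∈ c.1, d γ = true}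
  have hUo : ∀ c, IsOpen (U c) := fun c => isOpen_up c.2.1
  obtain ⟨T, hT1, hT2⟩ := S.open_cover hSH (S.isOpen_Sub (isOpen_iUnion hUo))
  have hex : ∀ j : T.J, ∃ R : Sys Y, (∀ i, ∃ (a : ι) (_ : ℕ), R.C i ⊆ S.Hit (S.cell m a.1) ∩ T.C j) ∧
      ∀ (a : ι) (_ : ℕ), ∀ z ∈ S.Hit (S.cell m a.1) ∩ T.C j, ∃ i, z ∈ R.C i := by
    intro j
    refine S.expand hSH (fun (a : ι) (_ : ℕ) => S.Hit (S.cell m a.1) ∩ T.C j)
      (fun a _ => (S.isClosed_Hit (S.isClosed_cell m a.1)).inter (T.hC j))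
      (fun A => if {a : ι | (S.Hit (S.cell m a.1) ∩ A).Nonempty}.Finite then
        {a : ι | (S.Hit (S.cell m a.1) ∩ A).Nonempty} else ∅) (fun A => ?_) ?_
    · split_ifs with hf
      · exact hf
      · exact finite_empty
    · intro a _ z hz
      obtain ⟨t, ht⟩ := (S.cpt z).elim_finite_subcover U hUo (hT1 j hz.2)
      refine ⟨S.Sub (⋃ c ∈ t, U c), S.isOpen_Sub (isOpen_biUnion (fun c _ => hUo c)), ht, ?_⟩
      intro A hzA hA
      have hf : {a : ι | (S.Hit (S.cell m a.1) ∩ A).Nonempty}.Finite := by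
        refine t.finite_toSet.subset ?_
        rintro b ⟨w, ⟨d, hd, hdb⟩, hwA⟩
        obtain ⟨c, hct, hdc⟩ := mem_iUnion₂.1 (hA hwA hd)
        have hdb' : S.addr m d = b.1 := hdb
        have hcb : c.1 ⊆ b.1 := by
          rw [← hdb']
          exact fun γ hγ => ⟨c.2.2.2 γ hγ, hdc γ hγ⟩
        have : c = b := Subtype.ext (Set.eq_of_subset_of_ncard_le hcb
          (by rw [b.2.2.1, c.2.2.1]) b.2.1)
        rw [← this]
        exact hct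
      simp only [if_pos hf]
      exact ⟨z, hz.1, hzA⟩
  choose R hR1 hR2 using hex
  refine ⟨T.sigma R, ?_, ?_⟩
  · rintro ⟨j, i⟩
    obtain ⟨a, -, ha⟩ := hR1 j i
    exact ⟨a.1, a.2.1, fun z hz => (ha hz.2).1⟩
  · rintro y hy ⟨d, hd, hk⟩
    have hyO : y ∈ S.Sub (⋃ c, U c) := by
      intro e he
      obtain ⟨c, hc1, hc2⟩ := Set.exists_subset_card_eq (hy e he)
      exact mem_iUnion.2 ⟨⟨c, (S.fin y e he m).subset hc1, hc2, fun γ hγ => (hc1 hγ).1⟩,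
        fun γ hγ => (hc1 hγ).2⟩
    obtain ⟨j, hj⟩ := hT2 y hyO
    obtain ⟨i, hi⟩ := hR2 j ⟨S.addr m d, S.fin y d hd m, hk, fun γ hγ => hγ.1⟩ 0 y
      ⟨⟨d, hd, rfl⟩, hj⟩
    exact ⟨⟨j, i⟩, hj, hi⟩

theorem certs [NormalSpace Y] [T1Space Y] (hSH : Shrink Y) :
    ∃ (T : Sys Y) (lab : T.J → Set Γ), (∀ j, (lab j).Finite) ∧
      ∀ y m, ∃ j, y ∈ T.C j ∧ ∃ d ∈ S.K y, S.addr m d ⊆ lab j := by
  choose T hT1 hT2 using fun p : ℕ × ℕ => S.cert_level hSH p.1 p.2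
  choose a ha1 ha2 using hT1
  refine ⟨(Sys.triv Y (ℕ × ℕ)).sigma T, fun p => a p.1 p.2, fun p => ha1 p.1 p.2, ?_⟩
  intro y m
  obtain ⟨d, hd, hmin⟩ := (wellFounded_lt (α := ℕ)).onFun (f := fun d => (S.addr m d).ncard)
    |>.has_min (S.K y) (S.ne y)
  obtain ⟨j, hj⟩ := hT2 (m, (S.addr m d).ncard) y (fun e he => not_lt.1 (hmin e he)) ⟨d, hd, rfl⟩
  obtain ⟨e, he, hea⟩ := ha2 _ j hj
  exact ⟨⟨(m, (S.addr m d).ncard), j⟩, ⟨mem_univ _, hj⟩, e, he, le_of_eq hea⟩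

end Setting

end Pool.Agent.H321Z.MR
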