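import Mathlib

set_option autoImplicit false

open Set Cardinal

namespace Pool.Agent.H321Z.MR

/-- A monotone operator on sets, of finite character. -/
structure FinOp {Γ : Type} (c : Set Γ → Set Γ) : Prop where
  mono : ∀ S T, S ⊆ T → c S ⊆ c T
  fin : ∀ S γ, γ ∈ c S → ∃ S₀ : Set Γ, S₀.Finite ∧ S₀ ⊆ S ∧ γ ∈ c S₀

theorem FinOp.fin_set {Γ : Type} {c : Set Γ → Set Γ} (hc : FinOp c) {S s : Set Γ}
    (hs : s.Finite) (h : s ⊆ c S) : ∃ S₀ : Set Γ, S₀.Finite ∧ S₀ ⊆ S ∧ s ⊆ c S₀ := by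
  choose! F hF using fun γ (hγ : γ ∈ s) => hc.fin S γ (h hγ)
  refine ⟨⋃ γ ∈ s, F γ, hs.biUnion (fun γ hγ => (hF γ hγ).1), ?_, ?_⟩
  · exact iUnion₂_subset (fun γ hγ => (hF γ hγ).2.1)
  · intro γ hγ
    exact hc.mono _ _ (subset_biUnion_of_mem (u := F) hγ) (hF γ hγ).2.2

/-- A Davies-type tree decomposition of a set `E`. -/
structure TreeData (Γ : Type) (E : Set Γ) : Type 1 where
  L : Type
  r : L → L → Prop
  wf : WellFounded r
  N : L → Set Γ
  D : L → List (Set Γ)
  N_count : ∀ l, (N l).Countable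
  N_sub : ∀ l, N l ⊆ E
  D_ne : ∀ l, D l ≠ []
  cover : ∀ c, FinOp c → ∀ s : Set Γ, s.Finite → s ⊆ c E → ∃ l, s ⊆ c (N l)
  lower : ∀ c, FinOp c → ∀ l, ∀ A ∈ D l, ∀ s : Set Γ, s.Finite → s ⊆ c A →
    s ⊆ c ∅ ∨ ∃ l', r l' l ∧ s ⊆ c (N l')
  pf : ∀ c, FinOp c → ∀ x : Set Γ, x.Finite → ∀ k : ℕ,
    {l | (D l).length = k ∧ ∀ A ∈ D l, ∃ δ ∈ x, δ ∈ c (N l) ∧ δ ∉ c A}.Finite

theorem tree_countable {Γ : Type} (E : Set Γ) (hE : E.Countable) : Nonempty (TreeData Γ E) :=
  ⟨{ L := Unit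
     r := fun _ _ => False
     wf := ⟨fun a => Acc.intro a (fun _ h => h.elim)⟩
     N := fun _ => E
     D := fun _ => [∅]
     N_count := fun _ => hE
     N_sub := fun _ => subset_rfl
     D_ne := fun _ => by simp
     cover := fun _ _ _ _ h => ⟨(), h⟩
     lower := fun c _ _ A hA s _ h => by
       rw [List.mem_singleton] at hA
       subst hA
       exact Or.inl h
     pf := fun _ _ _ _ _ => toFinite _ }⟩

theorem tree_step {Γ : Type} (E : Set Γ) {ι : Type} [LinearOrder ι] [WellFoundedLT ι]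
    [Nonempty ι] (φ : ι → Γ) (hφ : E = range φ)
    (T : ∀ i : ι, TreeData Γ (φ '' Iic i)) : Nonempty (TreeData Γ E) := by
  have bound : ∀ (S₀ : Set Γ) (J : Set ι), S₀.Finite → S₀ ⊆ φ '' J → S₀.Nonempty →
      ∃ i ∈ J, S₀ ⊆ φ '' Iic i := by
    intro S₀ J hfin hsub hne
    obtain ⟨J₀, hJ₀, hJfin, hJim⟩ := Set.Finite.exists_subset_finite_image_eq hfin hsub
    have hJne : J₀.Nonempty := by
      rw [← hJim] at hne
      exact hne.of_image
    obtain ⟨i, hi, hmax⟩ := hJfin.exists_maximalFor id J₀ hJne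
    refine ⟨i, hJ₀ hi, ?_⟩
    rw [← hJim]
    refine image_mono (fun j hj => ?_)
    rcases le_total j i with h | h
    · exact h
    · exact hmax hj h
  refine ⟨{ L := PSigma (fun i : ι => (T i).L)
            r := PSigma.Lex (· < ·) (fun i => (T i).r)
            wf := WellFounded.psigma_lex wellFounded_lt (fun i => (T i).wf)
            N := fun p => (T p.1).N p.2
            D := fun p => (φ '' Iio p.1) :: (T p.1).D p.2
            N_count := fun p => (T p.1).N_count p.2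
            N_sub := fun p => ((T p.1).N_sub p.2).trans (by rw [hφ]; exact image_subset_range _ _)
            D_ne := fun p => by simp
            cover := ?_
            lower := ?_
            pf := ?_ }⟩
  · intro c hc s hs h
    obtain ⟨S₀, h0, h1, h2⟩ := hc.fin_set hs h
    have : ∃ i, S₀ ⊆ φ '' Iic i := by
      rcases S₀.eq_empty_or_nonempty with he | hne
      · exact ⟨Classical.arbitrary ι, by rw [he]; exact empty_subset _⟩
      · obtain ⟨i, -, hi⟩ := bound S₀ univ h0 (by rw [image_univ, ← hφ]; exact h1) hne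
        exact ⟨i, hi⟩
    obtain ⟨i, hi⟩ := this
    obtain ⟨l, hl⟩ := (T i).cover c hc s hs (h2.trans (hc.mono _ _ hi))
    exact ⟨⟨i, l⟩, hl⟩
  · rintro c hc ⟨j, l⟩ A hA s hs h
    rcases List.mem_cons.1 hA with hA | hA
    · subst hA
      obtain ⟨S₀, h0, h1, h2⟩ := hc.fin_set hs h
      rcases S₀.eq_empty_or_nonempty with he | hne
      · left
        rw [← he]
        exact h2
      · right
        obtain ⟨i, hij, hi⟩ := bound S₀ (Iio j) h0 h1 hne
        obtain ⟨l', hl'⟩ := (T i).cover c hc s hs (h2.trans (hc.mono _ _ hi))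
        exact ⟨⟨i, l'⟩, PSigma.Lex.left _ _ hij, hl'⟩
    · rcases (T j).lower c hc l A hA s hs h with h' | ⟨l', hr, hl'⟩
      · exact Or.inl h'
      · exact Or.inr ⟨⟨j, l'⟩, PSigma.Lex.right _ hr, hl'⟩
  · intro c hc x hx k
    have hI : {i : ι | ∃ δ ∈ x, δ ∈ c (φ '' Iic i) ∧ δ ∉ c (φ '' Iio i)}.Finite := by
      have : {i : ι | ∃ δ ∈ x, δ ∈ c (φ '' Iic i) ∧ δ ∉ c (φ '' Iio i)} ⊆
          ⋃ δ ∈ x, {i : ι | δ ∈ c (φ '' Iic i) ∧ δ ∉ c (φ '' Iio i)} := by
        rintro i ⟨δ, hδ, h⟩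
        exact mem_biUnion hδ h
      refine (hx.biUnion (fun δ _ => ?_)).subset this
      refine Set.Subsingleton.finite ?_
      intro i hi j hj
      by_contra hne
      rcases lt_or_gt_of_ne hne with h | h
      · exact hj.2 (hc.mono _ _ (image_mono (Iic_subset_Iio.2 h)) hi.1)
      · exact hi.2 (hc.mono _ _ (image_mono (Iic_subset_Iio.2 h)) hj.1)
    refine (hI.biUnion (fun i _ => ((T i).pf c hc x hx (k - 1)).image
      (fun l => (⟨i, l⟩ : PSigma (fun i : ι => (T i).L))))).subset ?_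
    rintro ⟨i, l⟩ ⟨hlen, hall⟩
    refine mem_biUnion (x := i) ?_ ⟨l, ⟨?_, ?_⟩, rfl⟩
    · obtain ⟨δ, hδ, h1, h2⟩ := hall _ List.mem_cons_self
      exact ⟨δ, hδ, hc.mono _ _ ((T i).N_sub l) h1, h2⟩
    · simp only [List.length_cons] at hlen
      omega
    · intro A hA
      exact hall A (List.mem_cons_of_mem _ hA)

theorem tree_exists {Γ : Type} (E : Set Γ) : Nonempty (TreeData Γ E) := by
  suffices H : ∀ κ : Cardinal, ∀ E : Set Γ, #E = κ → Nonempty (TreeData Γ E) from H _ E rfl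
  intro κ
  induction κ using WellFoundedLT.induction with
  | ind κ ih =>
    intro E hE
    by_cases hc : E.Countable
    · exact tree_countable E hc
    have hinf : ℵ₀ ≤ κ := by
      rw [← hE]
      by_contra hlt
      exact hc (Cardinal.le_aleph0_iff_set_countable.1 (not_le.1 hlt).le)
    obtain ⟨ψ⟩ : Nonempty (κ.ord.ToType ≃ E) := Cardinal.eq.1 (by rw [mk_ord_toType, hE])
    haveI : Nonempty κ.ord.ToType := by
      have : E.Nonempty := by
        by_contra hne
        rw [not_nonempty_iff_eq_empty] at hne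
        exact hc (hne ▸ countable_empty)
      obtain ⟨e, he⟩ := this
      exact ⟨ψ.symm ⟨e, he⟩⟩
    let φ : κ.ord.ToType → Γ := fun i => (ψ i : Γ)
    have hφ : E = range φ := by
      ext e
      constructor
      · intro he
        exact ⟨ψ.symm ⟨e, he⟩, by simp [φ]⟩
      · rintro ⟨i, rfl⟩
        exact (ψ i).2
    have hT : ∀ i, Nonempty (TreeData Γ (φ '' Iic i)) := by
      intro i
      refine ih _ ?_ _ rfl
      refine lt_of_le_of_lt mk_image_le ?_
      rw [← Iio_insert]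
      refine lt_of_le_of_lt mk_insert_le ?_
      exact add_lt_of_lt hinf (mk_Iio_toType_ord_lt i) (lt_of_lt_of_le one_lt_aleph0 hinf)
    exact tree_step E φ hφ (fun i => (hT i).some)

end Pool.Agent.H321Z.MR
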