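import Pool.Agent.H321Z.MR.Core
import Pool.Agent.H321Z.MR.Tree

set_option autoImplicit false

open Set Filter Topology

namespace Pool.Agent.H321Z.MR

section closure

variable {Γ : Type} (G : Set Γ → Set Γ)

def clN (A : Set Γ) : ℕ → Set Γ
  | 0 => A
  | n + 1 => clN A n ∪ ⋃ s ∈ {s : Set Γ | s.Finite ∧ s ⊆ clN A n}, G s

/-- Closure under the countably valued finitary operation `G`. -/
def cl (A : Set Γ) : Set Γ := ⋃ n, clN G A n

def IsCl (M : Set Γ) : Prop := ∀ s : Set Γ, s.Finite → s ⊆ M → G s ⊆ M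

theorem clN_mono_nat (A : Set Γ) : Monotone (clN G A) :=
  monotone_nat_of_le_succ (fun _ => subset_union_left)

theorem clN_mono {A B : Set Γ} (h : A ⊆ B) (n : ℕ) : clN G A n ⊆ clN G B n := by
  induction n with
  | zero => exact h
  | succ n ih =>
    refine union_subset_union ih ?_
    exact biUnion_subset_biUnion_left (fun s hs => ⟨hs.1, hs.2.trans ih⟩)

theorem cl_mono {A B : Set Γ} (h : A ⊆ B) : cl G A ⊆ cl G B :=
  iUnion_mono (clN_mono G h)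

theorem subset_cl (A : Set Γ) : A ⊆ cl G A := subset_iUnion (clN G A) 0

theorem isCl_cl (A : Set Γ) : IsCl G (cl G A) := by
  intro s hs h
  have : ∃ n, s ⊆ clN G A n := by
    choose! n hn using fun γ (hγ : γ ∈ s) => mem_iUnion.1 (h hγ)
    obtain ⟨N, hN⟩ := (hs.image n).bddAbove
    exact ⟨N, fun γ hγ => clN_mono_nat G A (hN (mem_image_of_mem _ hγ)) (hn γ hγ)⟩
  obtain ⟨n, hn⟩ := this
  refine Subset.trans ?_ (subset_iUnion (clN G A) (n + 1))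
  exact (subset_biUnion_of_mem (u := G) (show s ∈ {s : Set Γ | s.Finite ∧ s ⊆ clN G A n} from
    ⟨hs, hn⟩)).trans subset_union_right

theorem IsCl.inter {M N : Set Γ} (hM : IsCl G M) (hN : IsCl G N) : IsCl G (M ∩ N) :=
  fun s hs h => subset_inter (hM s hs (h.trans inter_subset_left)) (hN s hs (h.trans inter_subset_right))

theorem cl_countable (hG : ∀ s, (G s).Countable) {A : Set Γ} (hA : A.Countable) :
    (cl G A).Countable := by
  refine countable_iUnion (fun n => ?_)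
  induction n with
  | zero => exact hA
  | succ n ih => exact ih.union ((countable_setOf_finite_subset ih).biUnion (fun s _ => hG s))

theorem clN_fin (A : Set Γ) (n : ℕ) : ∀ s : Set Γ, s.Finite → s ⊆ clN G A n →
    ∃ A₀ : Set Γ, A₀.Finite ∧ A₀ ⊆ A ∧ s ⊆ clN G A₀ n := by
  induction n with
  | zero => exact fun s hs h => ⟨s, hs, h, subset_rfl⟩
  | succ n ih =>
    intro s hs h
    have : ∀ γ ∈ s, ∃ A₀ : Set Γ, A₀.Finite ∧ A₀ ⊆ A ∧ γ ∈ clN G A₀ (n + 1) := by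
      intro γ hγ
      rcases h hγ with h1 | h1
      · obtain ⟨A₀, h2, h3, h4⟩ := ih {γ} (finite_singleton γ) (singleton_subset_iff.2 h1)
        exact ⟨A₀, h2, h3, Or.inl (h4 rfl)⟩
      · obtain ⟨t, ht, hγt⟩ := mem_iUnion₂.1 h1
        obtain ⟨A₀, h2, h3, h4⟩ := ih t ht.1 ht.2
        exact ⟨A₀, h2, h3, Or.inr (mem_biUnion (x := t) ⟨ht.1, h4⟩ hγt)⟩
    choose! F hF using this
    refine ⟨⋃ γ ∈ s, F γ, hs.biUnion (fun γ hγ => (hF γ hγ).1),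
      iUnion₂_subset (fun γ hγ => (hF γ hγ).2.1), fun γ hγ => ?_⟩
    exact clN_mono G (subset_biUnion_of_mem (u := F) hγ) _ (hF γ hγ).2.2

theorem finOp_cl (T : Set Γ) : FinOp (fun A => cl G (A ∪ T)) := by
  refine ⟨fun A B h => cl_mono G (union_subset_union_left _ h), fun A γ hγ => ?_⟩
  obtain ⟨n, hn⟩ := mem_iUnion.1 hγ
  obtain ⟨A₀, h1, h2, h3⟩ := clN_fin G (A ∪ T) n {γ} (finite_singleton γ)
    (singleton_subset_iff.2 hn)
  refine ⟨A₀ ∩ A, h1.inter_of_left _, inter_subset_right, mem_iUnion.2 ⟨n, ?_⟩⟩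
  refine clN_mono G (fun δ hδ => ?_) n (h3 rfl)
  rcases h2 hδ with h | h
  · exact Or.inl ⟨hδ, h⟩
  · exact Or.inr h

end closure

section cube

variable {Γ : Type}

open Classical in
/-- The retraction of the cube killing the coordinates outside `M`. -/
noncomputable def ret (M : Set Γ) (d : Γ → Bool) : Γ → Bool := fun γ => if γ ∈ M then d γ else false

theorem ret_of_mem {M : Set Γ} (d : Γ → Bool) {γ : Γ} (h : γ ∈ M) : ret M d γ = d γ := if_pos h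

theorem ret_of_not_mem {M : Set Γ} (d : Γ → Bool) {γ : Γ} (h : γ ∉ M) : ret M d γ = false :=
  if_neg h

theorem Dep.ret {Q : Set (Γ → Bool)} {s : Set Γ} (h : Dep Q s) (M : Set Γ) :
    Dep (ret M ⁻¹' Q) (s ∩ M) := by
  intro d d' hd hQ
  refine h _ _ (fun γ hγ => ?_) hQ
  by_cases hM : γ ∈ M
  · rw [ret_of_mem _ hM, ret_of_mem _ hM, hd γ ⟨hγ, hM⟩]
  · rw [ret_of_not_mem _ hM, ret_of_not_mem _ hM]

theorem Dep.ret_eq {Q : Set (Γ → Bool)} {s M : Set Γ} (h : Dep Q s) (hs : s ⊆ M) :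
    MR.ret M ⁻¹' Q = Q := by
  ext d
  exact ⟨fun hd => h _ _ (fun γ hγ => ret_of_mem d (hs hγ)) hd,
    fun hd => h _ _ (fun γ hγ => (ret_of_mem d (hs hγ)).symm) hd⟩

/-- `Q` depends on finitely many coordinates from `N`. -/
def InB (N : Set Γ) (Q : Set (Γ → Bool)) : Prop := ∃ s : Set Γ, s.Finite ∧ s ⊆ N ∧ Dep Q s

theorem InB.mono {N N' : Set Γ} {Q : Set (Γ → Bool)} (h : InB N Q) (hN : N ⊆ N') : InB N' Q := by
  obtain ⟨s, h1, h2, h3⟩ := h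
  exact ⟨s, h1, h2.trans hN, h3⟩

theorem InB.isOpen {N : Set Γ} {Q : Set (Γ → Bool)} (h : InB N Q) : IsOpen Q := by
  obtain ⟨s, h1, -, h3⟩ := h
  exact h3.isOpen h1

theorem InB.isClosed {N : Set Γ} {Q : Set (Γ → Bool)} (h : InB N Q) : IsClosed Q := by
  obtain ⟨s, h1, -, h3⟩ := h
  exact h3.isClosed h1

theorem finite_dep {s : Set Γ} (hs : s.Finite) : {Q : Set (Γ → Bool) | Dep Q s}.Finite := by
  have : Finite s := hs.to_subtype
  refine (finite_range (fun A : Set (s → Bool) => (fun d : Γ → Bool => fun γ : s => d γ.1) ⁻¹' A)).subset ?_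
  intro Q hQ
  refine ⟨(fun d : Γ → Bool => fun γ : s => d γ.1) '' Q, ?_⟩
  ext d
  constructor
  · rintro ⟨d', hd', he⟩
    exact hQ d' d (fun γ hγ => congrFun he ⟨γ, hγ⟩) hd'
  · intro hd
    exact ⟨d, hd, rfl⟩

theorem countable_InB {N : Set Γ} (hN : N.Countable) : {Q | InB N Q}.Countable := by
  refine ((countable_setOf_finite_subset hN).biUnion
    (fun s hs => (finite_dep hs.1).countable)).mono ?_
  rintro Q ⟨s, h1, h2, h3⟩
  exact mem_biUnion (x := s) ⟨h1, h2⟩ h3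

end cube

variable {Y Γ : Type} [TopologicalSpace Y]

namespace Setting

variable (S : Setting Y Γ)

/-- No fibre meets both sets. -/
def RD (Q P : Set (Γ → Bool)) : Prop :=
  ∀ y, ∀ d ∈ S.K y, ∀ d' ∈ S.K y, d ∈ Q → d' ∈ P → False

/-- `G` is a witness function for pairs of points in a common fibre. -/
def IsWit (G : Set Γ → Set Γ) : Prop :=
  ∀ s : Set Γ, s.Finite → ∀ y, ∀ d ∈ S.K y, ∀ d' ∈ S.K y, ∃ y₀, ∃ e ∈ S.K y₀, ∃ e' ∈ S.K y₀,
    (∀ γ ∈ s, e γ = d γ ∧ e' γ = d' γ) ∧ ∀ γ, e γ = true ∨ e' γ = true → γ ∈ G s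

theorem supp_countable (y : Y) (d : Γ → Bool) (hd : d ∈ S.K y) : {γ | d γ = true}.Countable := by
  refine (countable_iUnion (fun n => (S.fin y d hd n).countable)).mono ?_
  intro γ hγ
  exact mem_iUnion.2 ⟨S.lev γ, le_rfl, hγ⟩

theorem exists_wit : ∃ G : Set Γ → Set Γ, (∀ s, (G s).Countable) ∧ S.IsWit G := by
  have : ∀ s : Set Γ, ∃ A : Set Γ, A.Countable ∧ (s.Finite → ∀ y, ∀ d ∈ S.K y, ∀ d' ∈ S.K y,
      ∃ y₀, ∃ e ∈ S.K y₀, ∃ e' ∈ S.K y₀,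
      (∀ γ ∈ s, e γ = d γ ∧ e' γ = d' γ) ∧ ∀ γ, e γ = true ∨ e' γ = true → γ ∈ A) := by
    intro s
    by_cases hs : s.Finite
    swap
    · exact ⟨∅, countable_empty, fun h => (hs h).elim⟩
    have : Finite s := hs.to_subtype
    have h2 : ∀ p : (s → Bool) × (s → Bool), ∃ A : Set Γ, A.Countable ∧
        ((∃ y₀, ∃ e ∈ S.K y₀, ∃ e' ∈ S.K y₀, ∀ γ : s, e γ = p.1 γ ∧ e' γ = p.2 γ) →
         ∃ y₀, ∃ e ∈ S.K y₀, ∃ e' ∈ S.K y₀, (∀ γ : s, e γ = p.1 γ ∧ e' γ = p.2 γ) ∧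
          ∀ γ, e γ = true ∨ e' γ = true → γ ∈ A) := by
      intro p
      by_cases hp : ∃ y₀, ∃ e ∈ S.K y₀, ∃ e' ∈ S.K y₀, ∀ γ : s, e γ = p.1 γ ∧ e' γ = p.2 γ
      · obtain ⟨y₀, e, he, e', he', h⟩ := hp
        exact ⟨{γ | e γ = true} ∪ {γ | e' γ = true},
          (S.supp_countable y₀ e he).union (S.supp_countable y₀ e' he'),
          fun _ => ⟨y₀, e, he, e', he', h, fun γ hγ => hγ⟩⟩
      · exact ⟨∅, countable_empty, fun h => (hp h).elim⟩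
    choose A hA1 hA2 using h2
    refine ⟨⋃ p, A p, countable_iUnion hA1, fun _ y d hd d' hd' => ?_⟩
    obtain ⟨y₀, e, he, e', he', h1, h2⟩ := hA2 (fun γ => d γ, fun γ => d' γ)
      ⟨y, d, hd, d', hd', fun _ => ⟨rfl, rfl⟩⟩
    exact ⟨y₀, e, he, e', he', fun γ hγ => h1 ⟨γ, hγ⟩, fun γ hγ => mem_iUnion.2 ⟨_, h2 γ hγ⟩⟩
  choose G hG1 hG2 using this
  exact ⟨G, hG1, hG2⟩

theorem RD.ret {S : Setting Y Γ} {G : Set Γ → Set Γ} (hG : S.IsWit G) {M : Set Γ} (hM : IsCl G M)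
    {Q P : Set (Γ → Bool)} {s t : Set Γ} (hs : s.Finite) (ht : t.Finite) (hQ : Dep Q s)
    (hP : Dep P t) (h : S.RD Q P) : S.RD (ret M ⁻¹' Q) (ret M ⁻¹' P) := by
  intro y d hd d' hd' h1 h2
  have hfin : ((s ∪ t) ∩ M).Finite := (hs.union ht).inter_of_left _
  obtain ⟨y₀, e, he, e', he', h3, h4⟩ := hG _ hfin y d hd d' hd'
  have hsub := hM _ hfin inter_subset_right
  refine h y₀ e he e' he' (hQ _ _ (fun γ hγ => ?_) h1) (hP _ _ (fun γ hγ => ?_) h2)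
  · by_cases hγM : γ ∈ M
    · rw [ret_of_mem _ hγM, (h3 γ ⟨Or.inl hγ, hγM⟩).1]
    · rw [ret_of_not_mem _ hγM]
      by_contra hne
      exact hγM (hsub (h4 γ (Or.inl (by simpa using Ne.symm hne))))
  · by_cases hγM : γ ∈ M
    · rw [ret_of_mem _ hγM, (h3 γ ⟨Or.inr hγ, hγM⟩).2]
    · rw [ret_of_not_mem _ hγM]
      by_contra hne
      exact hγM (hsub (h4 γ (Or.inr (by simpa using Ne.symm hne))))

theorem exists_RD (y : Y) {Q : Set (Γ → Bool)} (hQ : IsClosed Q) (hy : y ∉ S.Hit Q) :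
    ∃ (P : Set (Γ → Bool)) (s : Set Γ), s.Finite ∧ Dep P s ∧ S.K y ⊆ P ∧ S.RD Q P := by
  obtain ⟨P, s, h1, h2, h3, h4⟩ := S.exists_sat y (S.isClosed_Hit hQ).isOpen_compl hy
  exact ⟨P, s, h1, h2, h3, fun z d hd d' hd' hdQ hdP => h4 ⟨d', hd', hdP⟩ ⟨d, hd, hdQ⟩⟩

theorem mem_ret {P : Set (Γ → Bool)} {s M : Set Γ} (hP : Dep P s) {m : ℕ}
    (hm : ∀ γ ∈ s, S.lev γ ≤ m) {d : Γ → Bool} (hd : d ∈ P) (hM : S.addr m d ⊆ M) :
    d ∈ ret M ⁻¹' P := by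
  refine hP _ _ (fun γ hγ => ?_) hd
  by_cases hγM : γ ∈ M
  · rw [ret_of_mem _ hγM]
  · rw [ret_of_not_mem _ hγM]
    by_contra hne
    exact hγM (hM ⟨hm γ hγ, by simpa using hne⟩)

/-- The open set attached to a leaf of the tree. -/
def leafOpen (N : Set Γ) (D : List (Set Γ)) (n : ℕ) : Set Y :=
  ⋂ A ∈ {A | A ∈ D}, S.Sub (⋃ δ ∈ {δ | δ ∈ N ∧ δ ∉ A ∧ S.lev δ ≤ n}, {e | e δ = true})

theorem isOpen_leafOpen (N : Set Γ) (D : List (Set Γ)) (n : ℕ) : IsOpen (S.leafOpen N D n) :=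
  D.finite_toSet.isOpen_biInter (fun _ _ => S.isOpen_Sub (isOpen_biUnion (fun δ _ =>
    show IsOpen ((fun e : Γ → Bool => e δ) ⁻¹' {true}) from
      (isOpen_discrete _).preimage (continuous_apply δ))))

theorem mem_leafOpen {N : Set Γ} {D : List (Set Γ)} {n : ℕ} {z : Y} :
    z ∈ S.leafOpen N D n ↔
      ∀ A ∈ D, ∀ e ∈ S.K z, ∃ δ, δ ∈ N ∧ δ ∉ A ∧ S.lev δ ≤ n ∧ e δ = true := by
  simp only [leafOpen, Sub, mem_iInter, mem_setOf_eq, subset_def, mem_iUnion, exists_prop,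
    and_assoc]

theorem main_ind {G : Set Γ → Set Γ} (hG : S.IsWit G) (τ : TreeData Γ univ) (y : Y)
    (F : Filter Y) (𝒯 : Set (Set Γ))
    (hdir : ∀ T ∈ 𝒯, ∀ m, ∃ T' ∈ 𝒯, T ⊆ T' ∧ ∃ d ∈ S.K y, S.addr m d ⊆ T')
    (hbase : ∀ T ∈ 𝒯, ∀ Q P, InB (cl G (∅ ∪ T)) Q → InB (cl G (∅ ∪ T)) P → S.RD Q P →
      y ∈ S.Hit P → (S.Hit Q)ᶜ ∈ F)
    (hneg : ∀ T ∈ 𝒯, ∀ l n Q Q', InB (cl G (τ.N l ∪ T)) Q → InB (cl G (τ.N l ∪ T)) Q' →
      S.Hit Q \ S.Sub Q' ⊆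
        S.leafOpen (cl G (τ.N l ∪ T)) ((τ.D l).map (fun A => cl G (A ∪ T))) n →
      y ∉ S.leafOpen (cl G (τ.N l ∪ T)) ((τ.D l).map (fun A => cl G (A ∪ T))) n →
      (S.Hit Q \ S.Sub Q')ᶜ ∈ F) :
    ∀ l, ∀ T ∈ 𝒯, ∀ Q, InB (cl G (τ.N l ∪ T)) Q → y ∉ S.Hit Q → (S.Hit Q)ᶜ ∈ F := by
  have base : ∀ T ∈ 𝒯, ∀ Q, InB (cl G (∅ ∪ T)) Q → y ∉ S.Hit Q → (S.Hit Q)ᶜ ∈ F := by
    intro T hT Q hQ hy
    obtain ⟨P, s, hs, hP, hK, hRD⟩ := S.exists_RD y hQ.isClosed hy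
    obtain ⟨m, hm⟩ := S.exists_level hs
    obtain ⟨T', hT', hTT', d, hd, hdT⟩ := hdir T hT m
    have hQ' := hQ.mono (cl_mono G (union_subset_union_right ∅ hTT'))
    obtain ⟨t, ht, htM, hQt⟩ := hQ'
    have h1 := RD.ret hG (isCl_cl G (∅ ∪ T')) ht hs hQt hP hRD
    rw [hQt.ret_eq htM] at h1
    refine hbase T' hT' Q _ ⟨t, ht, htM, hQt⟩
      ⟨_, hs.inter_of_left _, inter_subset_right, hP.ret _⟩ h1 ⟨d, hd, ?_⟩
    exact S.mem_ret hP hm (hK hd) (hdT.trans (subset_union_right.trans (subset_cl G _)))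
  intro l
  induction l using τ.wf.induction with
  | _ l ih =>
  intro T hT Q hQ hy
  obtain ⟨P, s, hs, hP, hK, hRD⟩ := S.exists_RD y hQ.isClosed hy
  have hy1 : y ∉ S.Hit Pᶜ := fun ⟨d, hd, hd'⟩ => hd' (hK hd)
  obtain ⟨P₁, s₁, hs₁, hP₁, hK₁, hRD₁⟩ := S.exists_RD y (hP.compl.isClosed hs) hy1
  have hy2 : y ∉ S.Hit P₁ᶜ := fun ⟨d, hd, hd'⟩ => hd' (hK₁ hd)
  obtain ⟨P₂, s₂, hs₂, hP₂, hK₂, hRD₂⟩ := S.exists_RD y (hP₁.compl.isClosed hs₁) hy2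
  obtain ⟨m, hm⟩ := S.exists_level (hs.union hs₂)
  obtain ⟨T', hT', hTT', d, hd, hdT⟩ := hdir T hT m
  set N := cl G (τ.N l ∪ T') with hN
  have hQ' : InB N Q := hQ.mono (cl_mono G (union_subset_union_right _ hTT'))
  have hTc : ∀ A : Set Γ, T' ⊆ cl G (A ∪ T') := fun A => subset_union_right.trans (subset_cl G _)
  let M : Set Γ → Set Γ := fun A => N ∩ cl G (A ∪ T')
  have hMc : ∀ A, IsCl G (M A) := fun A => IsCl.inter G (isCl_cl G _) (isCl_cl G _)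
  have hTM : ∀ A, T' ⊆ M A := fun A => subset_inter (hTc _) (hTc _)
  let Q' : Set (Γ → Bool) := ⋃ A ∈ {A | A ∈ τ.D l}, ret (M A) ⁻¹' P₁ᶜ
  have hQ'B : InB N Q' := by
    refine ⟨s₁ ∩ N, hs₁.inter_of_left _, inter_subset_right, ?_⟩
    intro e e' hee he
    obtain ⟨A, hA, heA⟩ := mem_iUnion₂.1 he
    refine mem_biUnion (x := A) hA ?_
    exact (hP₁.compl.ret (M A)).mono (inter_subset_inter_right _ inter_subset_left) e e' hee heA
  have hgood : ∀ A ∈ τ.D l, (S.Hit (ret (M A) ⁻¹' P₁ᶜ))ᶜ ∈ F := by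
    intro A hA
    have hdep := hP₁.compl.ret (M A)
    have hfin : (s₁ ∩ M A).Finite := hs₁.inter_of_left _
    have hyA : y ∉ S.Hit (ret (M A) ⁻¹' P₁ᶜ) := by
      rintro ⟨e, he, he'⟩
      refine RD.ret hG (hMc A) hs₁ hs₂ hP₁.compl hP₂ hRD₂ y e he d hd he' ?_
      exact S.mem_ret hP₂ (fun γ hγ => hm γ (Or.inr hγ)) (hK₂ hd) (hdT.trans (hTM A))
    rcases τ.lower _ (finOp_cl G T') l A hA (s₁ ∩ M A) hfin
      (inter_subset_right.trans inter_subset_right) with h | ⟨l', hl', h⟩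
    · exact base T' hT' _ ⟨_, hfin, h, hdep⟩ hyA
    · exact ih l' hl' T' hT' _ ⟨_, hfin, h, hdep⟩ hyA
  have h1 : (S.Hit Q \ S.Sub Q')ᶜ ∈ F := by
    refine hneg T' hT' l m Q Q' hQ' hQ'B ?_ ?_
    · rintro z ⟨⟨e₀, he₀, he₀Q⟩, hz⟩
      rw [mem_leafOpen]
      intro A' hA' e he
      obtain ⟨A, hA, rfl⟩ := List.mem_map.1 hA'
      have hz' : ∃ e₁ ∈ S.K z, e₁ ∈ ret (M A) ⁻¹' P₁ := by
        by_contra hno
        push Not at hno
        exact hz (fun e₁ he₁ => mem_biUnion (x := A) hA (hno e₁ he₁))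
      obtain ⟨e₁, he₁, he₁P⟩ := hz'
      have a1 : ret (M A) e ∈ P := by
        by_contra hno
        exact RD.ret hG (hMc A) hs hs₁ hP.compl hP₁ hRD₁ z e he e₁ he₁ hno he₁P
      have a2 : ret N e ∉ P := by
        intro hno
        obtain ⟨t, ht, htN, hQt⟩ := hQ'
        have h2 := RD.ret hG (isCl_cl G (τ.N l ∪ T')) ht hs hQt hP hRD
        rw [hQt.ret_eq htN] at h2
        exact h2 z e₀ he₀ e he he₀Q hno
      by_contra hno
      push Not at hno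
      refine a2 (hP _ _ (fun γ hγ => ?_) a1)
      by_cases hγN : γ ∈ N
      · by_cases hγA : γ ∈ cl G (A ∪ T')
        · rw [ret_of_mem _ hγN, ret_of_mem _ (show γ ∈ M A from ⟨hγN, hγA⟩)]
        · rw [ret_of_mem _ hγN, ret_of_not_mem _ (fun h : γ ∈ M A => hγA h.2)]
          have := hno γ hγN hγA (hm γ (Or.inl hγ))
          simpa using this
      · rw [ret_of_not_mem _ hγN, ret_of_not_mem _ (fun h : γ ∈ M A => hγN h.1)]
    · rw [mem_leafOpen]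
      intro h
      obtain ⟨A, hA⟩ := List.exists_mem_of_ne_nil _ (τ.D_ne l)
      obtain ⟨δ, -, h2, h3, h4⟩ := h _ (List.mem_map_of_mem hA) d hd
      exact h2 (hTc A (hdT ⟨h3, h4⟩))
  have h2 : (⋂ A ∈ {A | A ∈ τ.D l}, (S.Hit (ret (M A) ⁻¹' P₁ᶜ))ᶜ) ∈ F :=
    (biInter_mem (τ.D l).finite_toSet).2 hgood
  filter_upwards [h1, h2] with z hz1 hz2 hzQ
  have hzS : z ∈ S.Sub Q' := by
    by_contra hno
    exact hz1 ⟨hzQ, hno⟩
  obtain ⟨e, he, heQ⟩ := S.Sub_subset_Hit _ hzS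
  obtain ⟨A, hA, heA⟩ := mem_iUnion₂.1 heQ
  exact mem_iInter₂.1 hz2 A hA ⟨e, he, heA⟩

theorem exists_local {G : Set Γ → Set Γ} (hGc : ∀ s, (G s).Countable) (τ : TreeData Γ univ)
    {T : Set Γ} (hT : T.Finite) :
    ∃ R : Sys Y, (∀ Q P, InB (cl G (∅ ∪ T)) Q → InB (cl G (∅ ∪ T)) P → S.RD Q P →
        ∃ j, R.C j = S.Hit Q ∧ R.W j = (S.Hit P)ᶜ) ∧
      ∀ l n Q Q', InB (cl G (τ.N l ∪ T)) Q → InB (cl G (τ.N l ∪ T)) Q' →
        S.Hit Q \ S.Sub Q' ⊆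
          S.leafOpen (cl G (τ.N l ∪ T)) ((τ.D l).map (fun A => cl G (A ∪ T))) n →
        ∃ j, R.C j = S.Hit Q \ S.Sub Q' ∧
          R.W j = S.leafOpen (cl G (τ.N l ∪ T)) ((τ.D l).map (fun A => cl G (A ∪ T))) n := by
  let J₁ : Type := {p : Set (Γ → Bool) × Set (Γ → Bool) //
    InB (cl G (∅ ∪ T)) p.1 ∧ InB (cl G (∅ ∪ T)) p.2 ∧ S.RD p.1 p.2}
  have c1 : Countable J₁ := by
    have h := countable_InB (cl_countable G hGc (countable_empty.union hT.countable))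
    refine Set.Countable.to_subtype (s := {p : Set (Γ → Bool) × Set (Γ → Bool) |
      InB (cl G (∅ ∪ T)) p.1 ∧ InB (cl G (∅ ∪ T)) p.2 ∧ S.RD p.1 p.2}) ((h.prod h).mono ?_)
    exact fun p hp => ⟨hp.1, hp.2.1⟩
  let V : τ.L × ℕ → Set Y := fun q =>
    S.leafOpen (cl G (τ.N q.1 ∪ T)) ((τ.D q.1).map (fun A => cl G (A ∪ T))) q.2
  let J₂ : τ.L × ℕ → Type := fun q => {p : Set (Γ → Bool) × Set (Γ → Bool) //
    InB (cl G (τ.N q.1 ∪ T)) p.1 ∧ InB (cl G (τ.N q.1 ∪ T)) p.2 ∧ S.Hit p.1 \ S.Sub p.2 ⊆ V q}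
  have c2 : ∀ q, Countable (J₂ q) := by
    intro q
    have h := countable_InB (cl_countable G hGc ((τ.N_count q.1).union hT.countable))
    refine Set.Countable.to_subtype (s := {p : Set (Γ → Bool) × Set (Γ → Bool) |
      InB (cl G (τ.N q.1 ∪ T)) p.1 ∧ InB (cl G (τ.N q.1 ∪ T)) p.2 ∧
        S.Hit p.1 \ S.Sub p.2 ⊆ V q}) ((h.prod h).mono ?_)
    exact fun p hp => ⟨hp.1, hp.2.1⟩
  have hV : SPF V := by
    refine SPF.of_level (κ := ℕ × ℕ) (fun q => ((τ.D q.1).length, q.2)) ?_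
    rintro ⟨k, n⟩ z
    obtain ⟨d, hd⟩ := S.ne z
    refine ((τ.pf _ (finOp_cl G T) _ (S.fin z d hd n) k).image (fun l => (l, n))).subset ?_
    rintro ⟨l, n'⟩ ⟨h1, h2⟩
    simp only [Prod.mk.injEq] at h1
    obtain ⟨h1, rfl⟩ := h1
    refine ⟨l, ⟨h1, fun A hA => ?_⟩, rfl⟩
    obtain ⟨δ, h3, h4, h5, h6⟩ := S.mem_leafOpen.1 h2 _ (List.mem_map_of_mem hA) d hd
    exact ⟨δ, ⟨h5, h6⟩, h3, h4⟩
  refine ⟨{ J := J₁ ⊕ (Σ q, J₂ q)
            C := Sum.elim (fun p => S.Hit p.1.1) (fun p => S.Hit p.2.1.1 \ S.Sub p.2.1.2)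
            W := Sum.elim (fun p => (S.Hit p.1.2)ᶜ) (fun p => V p.1)
            hC := ?_
            hW := ?_
            sub := ?_
            spf := ?_ }, ?_, ?_⟩
  · rintro (p | p)
    · exact S.isClosed_Hit p.2.1.isClosed
    · exact (S.isClosed_Hit p.2.2.1.isClosed).sdiff (S.isOpen_Sub p.2.2.2.1.isOpen)
  · rintro (p | p)
    · exact (S.isClosed_Hit p.2.2.1.isClosed).isOpen_compl
    · exact S.isOpen_leafOpen _ _ _
  · rintro (p | p)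
    · rintro z ⟨d, hd, hdQ⟩ ⟨d', hd', hdP⟩
      exact p.2.2.2 z d hd d' hd' hdQ hdP
    · exact p.2.2.2.2
  · refine (SPF.of_countable _).sum ?_
    exact (hV.sigma (fun q => SPF.of_countable (fun _ : J₂ q => (univ : Set Y)))).mono
      (fun p => subset_inter subset_rfl (subset_univ _))
  · intro Q P h1 h2 h3
    exact ⟨Sum.inl ⟨(Q, P), h1, h2, h3⟩, rfl, rfl⟩
  · intro l n Q Q' h1 h2 h3
    exact ⟨Sum.inr ⟨(l, n), ⟨(Q, Q'), h1, h2, h3⟩⟩, rfl, rfl⟩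

include S in
theorem embeds [NormalSpace Y] [T1Space Y] (hSH : Shrink Y) :
    ∃ (Γ' : Type) (g : Y → (Γ' → ℝ)), IsEmbedding g ∧ ∀ y, Tendsto (g y) cofinite (𝓝 0) := by
  classical
  obtain ⟨G, hGc, hG⟩ := S.exists_wit
  obtain ⟨τ⟩ := tree_exists (univ : Set Γ)
  obtain ⟨A, lab, hlab, hA⟩ := S.certs hSH
  let Ct : Finset A.J → Set Y := fun t => ⋂ j ∈ t, A.C j
  let Wt : Finset A.J → Set Y := fun t => ⋂ j ∈ t, A.W j
  let Lt : Finset A.J → Set Γ := fun t => ⋃ j ∈ t, lab j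
  have hCt : ∀ t, IsClosed (Ct t) := fun t => isClosed_biInter (fun j _ => A.hC j)
  have hWt : ∀ t, IsOpen (Wt t) := fun t => isOpen_biInter_finset (fun j _ => A.hW j)
  have hLt : ∀ t, (Lt t).Finite := fun t => t.finite_toSet.biUnion (fun j _ => hlab j)
  have hCW : ∀ t, Ct t ⊆ Wt t := fun t => iInter₂_mono (fun j _ => A.sub j)
  choose W' hW'o hW'1 hW'2 using fun t => normal_exists_closure_subset (hCt t) (hWt t) (hCW t)
  choose R hR1 hR2 using fun t => S.exists_local hGc τ (hLt t)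
  let B : Sys Y :=
    { J := Finset A.J
      C := fun t => closure (W' t)
      W := Wt
      hC := fun _ => isClosed_closure
      hW := hWt
      sub := hW'2
      spf := A.spf.finset }
  let B' := B.sigma R
  refine embed_of_sys
    { J := Finset A.J ⊕ B'.J
      C := Sum.elim Ct B'.C
      W := Sum.elim W' B'.W
      hC := by
        rintro (t | j)
        exacts [hCt t, B'.hC j]
      hW := by
        rintro (t | j)
        exacts [hW'o t, B'.hW j]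
      sub := by
        rintro (t | j)
        exacts [hW'1 t, B'.sub j]
      spf := (A.spf.finset.mono (fun t => subset_closure.trans (hW'2 t))).sum B'.spf } ?_
  intro y F hneg hpos
  have loc : ∀ t, y ∈ Ct t → ∀ j, y ∉ (R t).W j → ((R t).C j)ᶜ ∈ F := by
    intro t ht j hj
    have h1 : W' t ∈ F := hpos (Sum.inl t) ht
    have h2 : (closure (W' t) ∩ (R t).C j)ᶜ ∈ F := hneg (Sum.inr ⟨t, j⟩) (fun h => hj h.2)
    filter_upwards [h1, h2] with z hz1 hz2 hz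
    exact hz2 ⟨subset_closure hz1, hz⟩
  have key := S.main_ind hG τ y F {T | ∃ t, y ∈ Ct t ∧ Lt t = T} ?_ ?_ ?_
  · intro O hO
    obtain ⟨O', hO'O, hO', hyO'⟩ := mem_nhds_iff.1 hO
    obtain ⟨P, s, hs, hP, hK, hPO⟩ := S.exists_sat y hO' hyO'
    obtain ⟨l, hl⟩ := τ.cover _ (finOp_cl G (Lt ∅)) s hs
      ((subset_univ s).trans (subset_union_left.trans (subset_cl G _)))
    have h := key l (Lt ∅) ⟨∅, by simp [Ct], rfl⟩ Pᶜ ⟨s, hs, hl, hP.compl⟩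
      (fun ⟨d, hd, hd'⟩ => hd' (hK hd))
    rw [compl_Hit, compl_compl] at h
    exact mem_of_superset h ((S.Sub_subset_Hit P).trans (hPO.trans hO'O))
  · rintro T ⟨t, ht, rfl⟩ m
    obtain ⟨j, hj, d, hd, hdj⟩ := hA y m
    refine ⟨Lt (insert j t), ⟨insert j t, ?_, rfl⟩, ?_, d, hd, hdj.trans ?_⟩
    · refine mem_iInter₂.2 (fun i hi => ?_)
      rcases Finset.mem_insert.1 hi with rfl | hi
      · exact hj
      · exact mem_iInter₂.1 ht i hi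
    · exact biUnion_subset_biUnion_left (fun i hi => Finset.mem_insert_of_mem hi)
    · exact subset_biUnion_of_mem (u := lab) (Finset.mem_insert_self j t)
  · rintro T ⟨t, ht, rfl⟩ Q P h1 h2 h3 hy
    obtain ⟨j, e1, e2⟩ := hR1 t Q P h1 h2 h3
    rw [← e1]
    refine loc t ht j ?_
    rw [e2]
    exact fun h => h hy
  · rintro T ⟨t, ht, rfl⟩ l n Q Q' h1 h2 h3 hy
    obtain ⟨j, e1, e2⟩ := hR2 t l n Q Q' h1 h2 h3
    rw [← e1]
    refine loc t ht j ?_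
    rw [e2]
    exact hy

end Setting

end Pool.Agent.H321Z.MR
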