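import Pool.Agent.H321Z.MR.Main

set_option autoImplicit false

open Set Filter Topology

namespace Pool.Agent.H321Z.MR

theorem shrink_of_cm {Y : Type} [TopologicalSpace Y] [NormalSpace Y]
    (h : ∀ U : ℕ → Set Y, (∀ n, IsOpen (U n)) → ⋃ n, U n = univ →
      ∃ (ι : Type) (V : ι → Set Y), (∀ i, IsOpen (V i)) ∧ ⋃ i, V i = univ ∧
        (∀ i, ∃ n, V i ⊆ U n) ∧ ∀ y, {i | y ∈ V i}.Finite) : Shrink Y := by
  intro C W hC hW hCW
  obtain ⟨ι, V, hVo, hVc, hVU, hVf⟩ := h (fun n => W n ∪ Cᶜ)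
    (fun n => (hW n).union hC.isOpen_compl) (by
      refine eq_univ_of_forall (fun y => ?_)
      by_cases hy : y ∈ C
      · obtain ⟨n, hn⟩ := mem_iUnion.1 (hCW hy)
        exact mem_iUnion.2 ⟨n, Or.inl hn⟩
      · exact mem_iUnion.2 ⟨0, Or.inr hy⟩)
  choose ν hν using hVU
  obtain ⟨v, hv1, hv2, hv3⟩ := exists_subset_iUnion_closed_subset (u := fun n => ⋃ i ∈ {i | ν i = n}, V i)
    hC (fun n => isOpen_biUnion (fun i _ => hVo i)) (fun y _ => ((hVf y).image ν).subset (by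
      intro n hn
      obtain ⟨i, hi, hy⟩ := mem_iUnion₂.1 hn
      exact ⟨i, hy, hi⟩)) (by
      intro y _
      obtain ⟨i, hi⟩ := mem_iUnion.1 (hVc.symm ▸ mem_univ y : y ∈ ⋃ i, V i)
      exact mem_iUnion.2 ⟨ν i, mem_biUnion (x := i) rfl hi⟩)
  refine ⟨fun n => v n ∩ C, fun n => (hv2 n).inter hC, fun n y hy => ?_, fun y hy => ?_⟩
  · obtain ⟨i, hi, hyi⟩ := mem_iUnion₂.1 (hv3 n hy.1)
    have hi' : ν i = n := hi
    rcases hν i hyi with h1 | h1
    · rwa [hi'] at h1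
    · exact (h1 hy.2).elim
  · obtain ⟨n, hn⟩ := mem_iUnion.1 (hv1 hy)
    exact mem_iUnion.2 ⟨n, hn, hy⟩

theorem Shrink.image {X Y : Type} [TopologicalSpace X] [TopologicalSpace Y] (h : Shrink X)
    {f : X → Y} (hf : Continuous f) (hc : IsClosedMap f) (hs : Function.Surjective f) :
    Shrink Y := by
  intro C W hC hW hCW
  obtain ⟨F, h1, h2, h3⟩ := h (f ⁻¹' C) (fun n => f ⁻¹' W n) (hC.preimage hf)
    (fun n => (hW n).preimage hf) (by rw [← preimage_iUnion]; exact preimage_mono hCW)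
  refine ⟨fun n => f '' F n, fun n => hc _ (h1 n), fun n => image_subset_iff.2 (h2 n), ?_⟩
  intro y hy
  obtain ⟨x, rfl⟩ := hs y
  obtain ⟨n, hn⟩ := mem_iUnion.1 (h3 hy)
  exact mem_iUnion.2 ⟨n, x, hn, rfl⟩

theorem normal_image {X Y : Type} [TopologicalSpace X] [TopologicalSpace Y] [NormalSpace X]
    {f : X → Y} (hf : Continuous f) (hc : IsClosedMap f) (hs : Function.Surjective f) :
    NormalSpace Y := by
  refine ⟨fun s t hs' ht' hd => ?_⟩
  obtain ⟨U, V, hU, hV, hsU, htV, hUV⟩ := normal_separation (hs'.preimage hf) (ht'.preimage hf)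
    (hd.preimage f)
  refine ⟨(f '' Uᶜ)ᶜ, (f '' Vᶜ)ᶜ, (hc _ hU.isClosed_compl).isOpen_compl,
    (hc _ hV.isClosed_compl).isOpen_compl, ?_, ?_, ?_⟩
  · rintro y hy ⟨x, hx, rfl⟩
    exact hx (hsU hy)
  · rintro y hy ⟨x, hx, rfl⟩
    exact hx (htV hy)
  · rw [Set.disjoint_left]
    intro y h1 h2
    obtain ⟨x, rfl⟩ := hs y
    have a1 : x ∈ U := by
      by_contra hx
      exact h1 ⟨x, hx, rfl⟩
    have a2 : x ∈ V := by
      by_contra hx
      exact h2 ⟨x, hx, rfl⟩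
    exact Set.disjoint_left.1 hUV a1 a2

theorem side_lemma {r v v' : ℝ} {b : Bool} (hr : r ≠ 0)
    (h : (b = true ∧ 0 ≤ r * (v - r)) ∨ (b = false ∧ r * (v - r) ≤ 0))
    (h' : (b = true ∧ 0 ≤ r * (v' - r)) ∨ (b = false ∧ r * (v' - r) ≤ 0)) :
    (r < v → r ≤ v') ∧ (v < r → v' ≤ r) := by
  rcases lt_or_gt_of_ne hr with hn | hp
  · cases b
    · simp only [Bool.false_eq_true, false_and, true_and, false_or] at h h'
      constructor <;> intro _ <;> nlinarith
    · simp only [Bool.true_eq_false, false_and, true_and, or_false] at h h'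
      constructor <;> intro _ <;> nlinarith
  · cases b
    · simp only [Bool.false_eq_true, false_and, true_and, false_or] at h h'
      constructor <;> intro _ <;> nlinarith
    · simp only [Bool.true_eq_false, false_and, true_and, or_false] at h h'
      constructor <;> intro _ <;> nlinarith

theorem exists_rat_ne {a b : ℝ} (h : a < b) : ∃ r : ℚ, r ≠ 0 ∧ a < r ∧ (r : ℝ) < b := by
  obtain ⟨r, h1, h2⟩ := exists_rat_btwn h
  by_cases hr : r = 0
  · obtain ⟨r', h3, h4⟩ := exists_rat_btwn h2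
    refine ⟨r', fun h0 => ?_, h1.trans h3, h4⟩
    rw [hr, h0] at h3
    exact lt_irrefl _ h3
  · exact ⟨r, hr, h1, h2⟩

theorem exists_setting {X Y Γ : Type} [TopologicalSpace X] [TopologicalSpace Y]
    (e : X → (Γ → ℝ)) (he : IsEmbedding e) (h0 : ∀ x, Tendsto (e x) cofinite (𝓝 0))
    (f : X → Y) (hf : IsProperMap f) (hs : Function.Surjective f) :
    Nonempty (Setting Y (Γ × {r : ℚ // r ≠ 0})) := by
  classical
  obtain ⟨lv, hlv⟩ := exists_injective_nat {r : ℚ // r ≠ 0}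
  let φ : Γ × {r : ℚ // r ≠ 0} → X → ℝ := fun i x => (i.2.1 : ℝ) * (e x i.1 - (i.2.1 : ℝ))
  have hφ : ∀ i, Continuous (φ i) := fun i =>
    continuous_const.mul (((continuous_apply i.1).comp he.continuous).sub continuous_const)
  let Z : Set (X × (Γ × {r : ℚ // r ≠ 0} → Bool)) :=
    {p | ∀ i, (p.2 i = true ∧ 0 ≤ φ i p.1) ∨ (p.2 i = false ∧ φ i p.1 ≤ 0)}
  have hZ : IsClosed Z := by
    have : Z = ⋂ i, ({p | p.2 i = true} ∩ {p | 0 ≤ φ i p.1}) ∪
        ({p | p.2 i = false} ∩ {p | φ i p.1 ≤ 0}) := by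
      ext p
      simp only [Z, mem_setOf_eq, mem_iInter, mem_union, mem_inter_iff]
    rw [this]
    refine isClosed_iInter (fun i => ?_)
    have c1 : Continuous (fun p : X × (Γ × {r : ℚ // r ≠ 0} → Bool) => p.2 i) :=
      (continuous_apply i).comp continuous_snd
    have c2 : Continuous (fun p : X × (Γ × {r : ℚ // r ≠ 0} → Bool) => φ i p.1) :=
      (hφ i).comp continuous_fst
    exact ((isClosed_eq c1 continuous_const).inter (isClosed_le continuous_const c2)).union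
      ((isClosed_eq c1 continuous_const).inter (isClosed_le c2 continuous_const))
  refine ⟨{ lev := fun i => lv i.2
            K := fun y => {d | ∃ x, f x = y ∧ (x, d) ∈ Z}
            cpt := fun y => ?_
            ne := fun y => ?_
            fin := ?_
            usc := fun U hU => ?_
            cont := ?_ }⟩
  · have h1 : IsCompact (f ⁻¹' {y}) := hf.isCompact_preimage isCompact_singleton
    have h2 := ((h1.prod (isCompact_univ (X := Γ × {r : ℚ // r ≠ 0} → Bool))).inter_right hZ).image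
      continuous_snd
    convert h2 using 1
    ext d
    constructor
    · rintro ⟨x, hx, hz⟩
      exact ⟨(x, d), ⟨⟨hx, mem_univ _⟩, hz⟩, rfl⟩
    · rintro ⟨⟨x, d'⟩, ⟨⟨hx, -⟩, hz⟩, rfl⟩
      exact ⟨x, hx, hz⟩
  · obtain ⟨x, hx⟩ := hs y
    refine ⟨fun i => decide (0 ≤ φ i x), x, hx, fun i => ?_⟩
    by_cases h : 0 ≤ φ i x
    · exact Or.inl ⟨decide_eq_true h, h⟩
    · exact Or.inr ⟨decide_eq_false h, (not_le.1 h).le⟩
  · rintro y d ⟨x, -, hz⟩ n
    have hfin : {r : {r : ℚ // r ≠ 0} | lv r ≤ n}.Finite :=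
      (finite_Iic n).preimage hlv.injOn
    have hγ : ∀ r : {r : ℚ // r ≠ 0}, {γ | |(r.1 : ℝ)| ≤ |e x γ|}.Finite := by
      intro r
      have hr : (0 : ℝ) < |(r.1 : ℝ)| := abs_pos.2 (by exact_mod_cast r.2)
      have := Metric.tendsto_nhds.1 (h0 x) _ hr
      rw [eventually_cofinite] at this
      simpa only [dist_zero_right, Real.norm_eq_abs, not_lt] using this
    refine (hfin.biUnion (fun r _ => (hγ r).image (fun γ => (γ, r)))).subset ?_
    rintro ⟨γ, r⟩ ⟨h1, h2⟩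
    refine mem_biUnion (x := r) h1 ⟨γ, ?_, rfl⟩
    rcases hz (γ, r) with h3 | h3
    · have h4 : 0 ≤ (r.1 : ℝ) * (e x γ - (r.1 : ℝ)) := h3.2
      have hr : (r.1 : ℝ) ≠ 0 := by exact_mod_cast r.2
      show |(r.1 : ℝ)| ≤ |e x γ|
      rcases lt_or_gt_of_ne hr with hn | hp
      · have : e x γ ≤ r.1 := by nlinarith
        rw [abs_of_neg hn, abs_of_neg (lt_of_le_of_lt this hn)]
        linarith
      · have : (r.1 : ℝ) ≤ e x γ := by nlinarith
        rw [abs_of_pos hp, abs_of_pos (lt_of_lt_of_le hp this)]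
        exact this
    · have h5 : d (γ, r) = false := h3.1
      rw [h2] at h5
      exact absurd h5 (by decide)
  · have h1 : IsClosed (f '' (Prod.fst '' (Z ∩ Prod.snd ⁻¹' Uᶜ))) :=
      hf.isClosedMap _ (isClosedMap_fst_of_compactSpace _
        (hZ.inter (hU.isClosed_compl.preimage continuous_snd)))
    convert h1.isOpen_compl using 1
    ext y
    constructor
    · rintro h ⟨x, ⟨⟨x', d⟩, ⟨hz, hd⟩, rfl⟩, hx⟩
      exact hd (h ⟨x', hx, hz⟩)
    · rintro h d ⟨x, hx, hz⟩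
      by_contra hd
      exact h ⟨x, ⟨(x, d), ⟨hz, hd⟩, rfl⟩, hx⟩
  · rintro y O hO hy d ⟨x, rfl, hz⟩
    obtain ⟨V, hV, hVO⟩ := he.isInducing.isOpen_iff.1 (hO.preimage hf.continuous)
    have hxV : e x ∈ V := by
      have : x ∈ e ⁻¹' V := by rw [hVO]; exact hy
      exact this
    obtain ⟨I, u, hu, hIu⟩ := isOpen_pi_iff.1 hV (e x) hxV
    have hab : ∀ γ ∈ I, ∃ a b : {r : ℚ // r ≠ 0}, (a.1 : ℝ) < e x γ ∧ e x γ < b.1 ∧
        Icc (a.1 : ℝ) b.1 ⊆ u γ := by
      intro γ hγ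
      obtain ⟨l, r, hlr, hsub⟩ := mem_nhds_iff_exists_Ioo_subset.1 ((hu γ hγ).1.mem_nhds (hu γ hγ).2)
      obtain ⟨a, ha0, ha1, ha2⟩ := exists_rat_ne hlr.1
      obtain ⟨b, hb0, hb1, hb2⟩ := exists_rat_ne hlr.2
      exact ⟨⟨a, ha0⟩, ⟨b, hb0⟩, ha2, hb1, (Icc_subset_Ioo ha1 hb2).trans hsub⟩
    have : Nonempty {r : ℚ // r ≠ 0} := ⟨⟨1, one_ne_zero⟩⟩
    choose! a b hab using hab
    refine ⟨(fun γ => (γ, a γ)) '' (I : Set Γ) ∪ (fun γ => (γ, b γ)) '' (I : Set Γ),
      (I.finite_toSet.image _).union (I.finite_toSet.image _), ?_⟩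
    rintro z d' ⟨x', rfl, hz'⟩ hag
    have : x' ∈ e ⁻¹' V := by
      refine hIu (fun γ hγ => (hab γ hγ).2.2 ⟨?_, ?_⟩)
      · have h1 := hz (γ, a γ)
        have h2 := hz' (γ, a γ)
        have h3 : d' (γ, a γ) = d (γ, a γ) := hag _ (Or.inl ⟨γ, hγ, rfl⟩)
        simp only [h3] at h2
        exact (side_lemma (by exact_mod_cast (a γ).2) h1 h2).1 (hab γ hγ).1
      · have h1 := hz (γ, b γ)
        have h2 := hz' (γ, b γ)
        have h3 : d' (γ, b γ) = d (γ, b γ) := hag _ (Or.inr ⟨γ, hγ, rfl⟩)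
        simp only [h3] at h2
        exact (side_lemma (by exact_mod_cast (b γ).2) h1 h2).2 (hab γ hγ).2.1
    rw [hVO] at this
    exact this

theorem t1_image {X Y Γ : Type} [TopologicalSpace X] [TopologicalSpace Y]
    (e : X → (Γ → ℝ)) (he : IsEmbedding e) (f : X → Y) (hf : IsProperMap f)
    (hs : Function.Surjective f) : T1Space Y := by
  have : T1Space X := he.t1Space
  refine ⟨fun y => ?_⟩
  obtain ⟨x, rfl⟩ := hs y
  rw [← image_singleton]
  exact hf.isClosedMap _ isClosed_singleton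

end Pool.Agent.H321Z.MR
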