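import Mathlib

set_option autoImplicit false

open Set Filter Topology

namespace Pool.Agent.H321Z.MR

variable {Y : Type}

/-- An indexed family of sets is a countable union of point-finite subfamilies. -/
def SPF {J : Type} (W : J → Set Y) : Prop :=
  ∃ lv : J → ℕ, ∀ n y, {j | lv j = n ∧ y ∈ W j}.Finite

theorem SPF.of_level {J κ : Type} [Countable κ] {W : J → Set Y} (lv : J → κ)
    (h : ∀ n y, {j | lv j = n ∧ y ∈ W j}.Finite) : SPF W := by
  obtain ⟨e, he⟩ := exists_injective_nat κ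
  refine ⟨fun j => e (lv j), fun n y => ?_⟩
  by_cases hn : ∃ k, e k = n
  · obtain ⟨k, rfl⟩ := hn
    refine (h k y).subset ?_
    rintro j ⟨h1, h2⟩
    exact ⟨he h1, h2⟩
  · refine finite_empty.subset ?_
    rintro j ⟨h1, -⟩
    exact hn ⟨_, h1⟩

theorem SPF.of_countable {J : Type} [Countable J] (W : J → Set Y) : SPF W :=
  SPF.of_level (κ := J) id (fun n _ => (finite_singleton n).subset (fun _ h => h.1))

theorem SPF.mono {J : Type} {W W' : J → Set Y} (h : SPF W) (hs : ∀ j, W' j ⊆ W j) : SPF W' := by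
  obtain ⟨lv, hlv⟩ := h
  exact ⟨lv, fun n y => (hlv n y).subset (fun j hj => ⟨hj.1, hs j hj.2⟩)⟩

theorem SPF.sigma {J : Type} {I : J → Type} {W : J → Set Y} {V : ∀ j, I j → Set Y}
    (h : SPF W) (hV : ∀ j, SPF (V j)) :
    SPF (fun p : (Σ j, I j) => W p.1 ∩ V p.1 p.2) := by
  obtain ⟨lv, hlv⟩ := h
  choose lv' hlv' using hV
  refine SPF.of_level (κ := ℕ × ℕ) (fun p => (lv p.1, lv' p.1 p.2)) ?_
  rintro ⟨n, m⟩ y
  refine ((hlv n y).biUnion (fun j _ => (hlv' j m y).image (fun i => (⟨j, i⟩ : Σ j, I j)))).subset ?_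
  rintro ⟨j, i⟩ ⟨h1, h2, h3⟩
  simp only [Prod.mk.injEq] at h1
  exact mem_biUnion (x := j) ⟨h1.1, h2⟩ ⟨i, ⟨h1.2, h3⟩, rfl⟩

theorem SPF.finset {J : Type} {W : J → Set Y} (h : SPF W) :
    SPF (fun s : Finset J => ⋂ j ∈ s, W j) := by
  obtain ⟨lv, hlv⟩ := h
  refine ⟨fun s => s.sup lv, fun n y => ?_⟩
  have hA : (⋃ m ∈ Iic n, {j | lv j = m ∧ y ∈ W j}).Finite :=
    (finite_Iic n).biUnion (fun m _ => hlv m y)
  refine (hA.finite_subsets.preimage (f := fun s : Finset J => (s : Set J))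
    Finset.coe_injective.injOn).subset ?_
  rintro s ⟨h1, h2⟩ j hj
  refine mem_biUnion (x := lv j) ?_ ⟨rfl, ?_⟩
  · rw [mem_Iic, ← h1]
    exact Finset.le_sup hj
  · exact mem_iInter₂.1 h2 j hj

theorem SPF.sum {J J' : Type} {W : J → Set Y} {W' : J' → Set Y} (h : SPF W) (h' : SPF W') :
    SPF (Sum.elim W W') := by
  obtain ⟨lv, hlv⟩ := h
  obtain ⟨lv', hlv'⟩ := h'
  refine ⟨Sum.elim lv lv', fun n y => ?_⟩
  refine (((hlv n y).image Sum.inl).union ((hlv' n y).image Sum.inr)).subset ?_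
  rintro (j | j) hj
  · exact Or.inl ⟨j, hj, rfl⟩
  · exact Or.inr ⟨j, hj, rfl⟩

/-- A system of pairs closed set inside open set, the open sets being sigma point-finite. -/
structure Sys (Y : Type) [TopologicalSpace Y] : Type 1 where
  J : Type
  C : J → Set Y
  W : J → Set Y
  hC : ∀ j, IsClosed (C j)
  hW : ∀ j, IsOpen (W j)
  sub : ∀ j, C j ⊆ W j
  spf : SPF W

variable [TopologicalSpace Y]

theorem embed_of_sys [NormalSpace Y] [T0Space Y] (S : Sys Y)
    (H : ∀ (y : Y) (F : Filter Y), (∀ j, y ∉ S.W j → (S.C j)ᶜ ∈ F) →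
      (∀ j, y ∈ S.C j → S.W j ∈ F) → F ≤ 𝓝 y) :
    ∃ (Γ' : Type) (g : Y → (Γ' → ℝ)), IsEmbedding g ∧ ∀ y, Tendsto (g y) cofinite (𝓝 0) := by
  have hex : ∀ j, ∃ h : C(Y, ℝ), EqOn h 0 (S.W j)ᶜ ∧ EqOn h 1 (S.C j) ∧
      ∀ x, h x ∈ Icc (0 : ℝ) 1 := fun j =>
    exists_continuous_zero_one_of_isClosed (S.hW j).isClosed_compl (S.hC j)
      (disjoint_compl_left_iff_subset.2 (S.sub j))
  choose h h0 h1 hI using hex
  obtain ⟨lv, hlv⟩ := S.spf
  let g : Y → (S.J → ℝ) := fun y j => h j y / ((lv j : ℝ) + 1)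
  have hpos : ∀ j, (0 : ℝ) < (lv j : ℝ) + 1 := fun j => by positivity
  have hg : Continuous g := continuous_pi (fun j => (h j).continuous.div_const _)
  refine ⟨S.J, g, ?_, ?_⟩
  · refine IsInducing.isEmbedding ?_
    rw [isInducing_iff_nhds]
    intro y
    refine le_antisymm (hg.tendsto y).le_comap (H y _ ?_ ?_)
    · intro j hj
      have e0 : h j y = 0 := h0 j hj
      refine mem_comap.2 ⟨{u | u j < 1 / ((lv j : ℝ) + 1)}, ?_, ?_⟩
      · refine (isOpen_lt (continuous_apply j) continuous_const).mem_nhds ?_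
        show h j y / ((lv j : ℝ) + 1) < 1 / ((lv j : ℝ) + 1)
        rw [e0]
        exact div_lt_div_of_pos_right one_pos (hpos j)
      · intro z hz hzC
        have e1 : h j z = 1 := h1 j hzC
        have : h j z / ((lv j : ℝ) + 1) < 1 / ((lv j : ℝ) + 1) := hz
        rw [e1] at this
        exact lt_irrefl _ this
    · intro j hj
      have e1 : h j y = 1 := h1 j hj
      refine mem_comap.2 ⟨{u | 0 < u j}, ?_, ?_⟩
      · refine (isOpen_lt continuous_const (continuous_apply j)).mem_nhds ?_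
        show 0 < h j y / ((lv j : ℝ) + 1)
        rw [e1]
        exact div_pos one_pos (hpos j)
      · intro z hz
        by_contra hzW
        have e0 : h j z = 0 := h0 j hzW
        have : 0 < h j z / ((lv j : ℝ) + 1) := hz
        rw [e0, zero_div] at this
        exact lt_irrefl _ this
  · intro y
    rw [Metric.tendsto_nhds]
    intro ε hε
    obtain ⟨N, hN⟩ := exists_nat_one_div_lt hε
    rw [eventually_cofinite]
    refine ((finite_Iic N).biUnion (fun m _ => hlv m y)).subset ?_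
    intro j hj
    simp only [mem_setOf_eq, dist_zero_right, Real.norm_eq_abs, not_lt] at hj
    have hnn : 0 ≤ g y j := div_nonneg (hI j y).1 (hpos j).le
    rw [abs_of_nonneg hnn] at hj
    refine mem_biUnion (x := lv j) ?_ ⟨rfl, ?_⟩
    · rw [mem_Iic]
      by_contra hlt
      push Not at hlt
      have h2 : g y j ≤ 1 / ((lv j : ℝ) + 1) := div_le_div_of_nonneg_right (hI j y).2 (hpos j).le
      have h3 : 1 / ((lv j : ℝ) + 1) ≤ 1 / ((N : ℝ) + 1) := by
        apply one_div_le_one_div_of_le (by positivity)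
        have : (N : ℝ) ≤ lv j := by exact_mod_cast hlt.le
        linarith
      linarith
    · by_contra hyW
      have e0 : h j y = 0 := h0 j hyW
      have : g y j = 0 := by simp only [g, e0, zero_div]
      linarith

end Pool.Agent.H321Z.MR
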